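import Pool.Agent.H947R2.TP.Main
import Pool.Agent.H854R2.TP.A1
import Pool.Agent.H60R2.TP.A1a
import Pool.Agent.H52R2.TP.A2
import Pool.Agent.H52R2.TP.A3
import Pool.Agent.H52R2.TP.A4
import Pool.Agent.H491R2.TP.A5
import Pool.Agent.H491R2.TP.A6
import Pool.Agent.H503R2.TP.B1
import Pool.Agent.H680R2.TP.B2
import Pool.Agent.H817R2.TP.B3
import Pool.Agent.H989R2.TP.B4
import Pool.Agent.H341R2.TP.B5
import Pool.Agent.H52R2.TP.C1
import Pool.Agent.H700R2.TP.C2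
import Pool.Agent.H594R2.TP.C3
import Pool.Agent.H52R2.TP.C4
import Pool.Agent.H817R2.TP.C5
import Pool.Agent.H61R2.TP.C6
import Pool.Agent.H259R2.TP.C7
import Pool.Agent.H581R2.TP.E1
import Pool.Agent.H403R2.TP.E2
import Pool.Agent.H272R2.TP.G1
import Pool.Agent.H403R2.TP.L1
import Pool.Agent.H124R2.TP.L2
import Pool.Agent.H680R2.TP.L3
import Pool.Agent.H594R2.TP.L4
import Pool.Agent.H52R2.TP.L5
import Pool.Agent.H25R2.TP.L6
import Pool.Agent.H558R2.TP.L7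
import Pool.Agent.H83R2.TP.P1
import Pool.Agent.H8R2.TP.P2
import Pool.Agent.H38R2.TP.P3
import Pool.Agent.H680R2.TP.V1
import Pool.Agent.H581R2.TP.V2
import Pool.Agent.H817R2.TP.V3

/-!
# Assembly (MP_c4753b_co)
-/

namespace H947TP

theorem allA5 : St_A5 := A5 (A1 A1a) A2 A3 A4
theorem allB5 : St_B5 := B5 B1 B2 B3 (B4 (A6 allA5))
theorem allC7 : St_C7 := C7 (C3 allB5 B3 C1 (C2 B3)) C5 (C6 C4 P1 B3)
theorem allL7 : St_L7 :=
  L7 (L1 P1) (L2 P1) (L4 (L1 P1) (L2 P1) L3) L5 (L6 P1 (L2 P1) L3 B3)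

end H947TP
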