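import Mathlib

/-!
# Translative packings that beat every lattice packing: definitions

`MP_c4753b_co`.  Everything lives in `ℝ^d = Fin d → ℝ` with Lebesgue measure.
-/

open MeasureTheory Filter Topology Set
open scoped ENNReal

namespace H947TP

/-! ### The notions of the problem -/

/-- The closed Euclidean ball of radius `R` centred at the origin of `ℝ^d`. -/
def eball (d : ℕ) (R : ℝ) : Set (Fin d → ℝ) := {x | ∑ i, x i ^ 2 ≤ R ^ 2}

/-- The translate `x + K`. -/
def tr {d : ℕ} (x : Fin d → ℝ) (K : Set (Fin d → ℝ)) : Set (Fin d → ℝ) := (fun z => x + z) '' K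

/-- The translates `x + K`, `x ∈ X`, have pairwise disjoint interiors. -/
def IsPacking {d : ℕ} (K X : Set (Fin d → ℝ)) : Prop :=
  ∀ x ∈ X, ∀ y ∈ X, x ≠ y → Disjoint (interior (tr x K)) (interior (tr y K))

/-- The upper density of the union of the translates `x + K`, `x ∈ X`. -/
noncomputable def density {d : ℕ} (K X : Set (Fin d → ℝ)) : ℝ≥0∞ :=
  limsup (fun R : ℝ => volume (eball d R ∩ ⋃ x ∈ X, tr x K) / volume (eball d R)) atTop

/-- `X` is a lattice of `ℝ^d`: all integer combinations of some basis of `ℝ^d`. -/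
def IsLattice {d : ℕ} (X : Set (Fin d → ℝ)) : Prop :=
  ∃ b : Module.Basis (Fin d) ℝ (Fin d → ℝ), X = {x | ∃ c : Fin d → ℤ, x = ∑ i, (c i : ℝ) • b i}

/-- `δ_T(K)`: the supremum of the densities of all translative packings of `K`. -/
noncomputable def deltaT {d : ℕ} (K : Set (Fin d → ℝ)) : ℝ≥0∞ :=
  ⨆ (X : Set (Fin d → ℝ)) (_ : IsPacking K X), density K X

/-- `δ_L(K)`: the supremum of the densities of all lattice packings of `K`. -/
noncomputable def deltaL {d : ℕ} (K : Set (Fin d → ℝ)) : ℝ≥0∞ :=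
  ⨆ (X : Set (Fin d → ℝ)) (_ : IsLattice X) (_ : IsPacking K X), density K X

/-! ### The body -/

/-- the number of coordinates in block `j` -/
def cnt {D n : ℕ} (b : Fin D → Fin n) (j : Fin n) : ℕ :=
  (Finset.univ.filter (fun l => b l = j)).card

/-- the average of `|w l|` over the coordinates `l` of block `j` -/
noncomputable def avg {D n : ℕ} (b : Fin D → Fin n) (j : Fin n) (w : Fin D → ℝ) : ℝ :=
  (∑ l ∈ Finset.univ.filter (fun l => b l = j), |w l|) / cnt b j

/-- The penalty in direction `k`: the largest block average over blocks other than that of `k`,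
or (rescaled) the excess of some `|w l|`, `l ≠ k`, over `1 - δ`. -/
noncomputable def Phi {D n : ℕ} (b : Fin D → Fin n) (δ : ℝ) (k : Fin D) (w : Fin D → ℝ) : ℝ :=
  max (⨆ j : {j : Fin n // j ≠ b k}, avg b j w)
    (⨆ l : {l : Fin D // l ≠ k}, max 0 ((|w l| - (1 - δ)) / δ))

/-- `|w k| + ε Φ_k(w)` -/
noncomputable def Nk {D n : ℕ} (b : Fin D → Fin n) (δ ε : ℝ) (k : Fin D) (w : Fin D → ℝ) : ℝ :=
  |w k| + ε * Phi b δ k w

/-- The convex body: the cube `[-1/2,1/2]^D` with its faces pushed in slightly. -/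
def body {D n : ℕ} (b : Fin D → Fin n) (δ ε : ℝ) : Set (Fin D → ℝ) :=
  {x | ∀ k, Nk b δ ε k (fun i => 2 * x i) ≤ 1}

/-- `v` separates: translates of the body by `x` and `x + v` do not overlap. -/
def Sep {D n : ℕ} (b : Fin D → Fin n) (δ ε : ℝ) (v : Fin D → ℝ) : Prop := ∃ k, 1 ≤ Nk b δ ε k v

/-! ### Lattice tilings by cubes -/

/-- The translates of the half-open cube `[0,1)^D` by `L` tile `ℝ^D`. -/
def IsTile {D : ℕ} (L : AddSubgroup (Fin D → ℝ)) : Prop :=
  ∀ x : Fin D → ℝ, ∃! v, v ∈ L ∧ ∀ i, v i ≤ x i ∧ x i < v i + 1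

/-- The vectors of the cubes of `L + [0,1)^D` that touch the cube `[0,1)^D` from above
in direction `k` along a facet. -/
def AA {D : ℕ} (L : AddSubgroup (Fin D → ℝ)) (k : Fin D) : Set (Fin D → ℝ) :=
  {u | u ∈ L ∧ u k = 1 ∧ ∀ l, l ≠ k → |u l| < 1}

/-- the area of the contact of the cubes `[0,1)^D` and `u + [0,1)^D` in direction `k` -/
noncomputable def wgt {D : ℕ} (k : Fin D) (u : Fin D → ℝ) : ℝ :=
  ∏ l ∈ Finset.univ.erase k, (1 - |u l|)

/-- the mean of `f (offset)` over the facet of the cube in direction `k` -/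
noncomputable def Ex {D : ℕ} (L : AddSubgroup (Fin D → ℝ)) (k : Fin D)
    (f : (Fin D → ℝ) → ℝ) : ℝ :=
  ∑ᶠ u ∈ AA L k, wgt k u * f u

/-- the sum over the directions of the mean penalties -/
noncomputable def SS {D n : ℕ} (b : Fin D → Fin n) (δ : ℝ) (L : AddSubgroup (Fin D → ℝ)) : ℝ :=
  ∑ k, Ex L k (Phi b δ k)

/-- number of coordinates of block `j` that come before `k` in the order `σ` -/
def before {D n : ℕ} (b : Fin D → Fin n) (σ : Fin D ≃ Fin D) (k : Fin D) (j : Fin n) : ℕ :=
  (Finset.univ.filter (fun l => b l = j ∧ σ l < σ k)).card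

/-! ### The non-lattice packing -/

/-- parity vector of `Z` over the blocks -/
def par {D n : ℕ} (b : Fin D → Fin n) (Z : Fin D → ℤ) (i : Fin n) : Bool :=
  decide ((∑ l ∈ Finset.univ.filter (fun l => b l = i), Z l) % 2 = 1)

/-- The centres: `Z` shifted by `1/2` in the blocks selected by `f (par Z)`. -/
noncomputable def tau {D n : ℕ} (b : Fin D → Fin n) (f : (Fin n → Bool) → (Fin n → Bool))
    (Z : Fin D → ℤ) (l : Fin D) : ℝ :=
  (Z l : ℝ) + if f (par b Z) (b l) then 1 / 2 else 0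

/-- `f` describes a cube tiling of `ℝ^n` without facet sharing (counterexample to Keller's
conjecture). -/
def Keller {n : ℕ} (f : (Fin n → Bool) → (Fin n → Bool)) : Prop :=
  (∀ q q', q ≠ q' → ∃ i, q i ≠ q' i ∧ f q i = f q' i) ∧
  (∀ q i, f (Function.update q i (!q i)) ≠ f q)

end H947TP
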