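import Pool.Agent.H947R2.TP.Stubs
import Pool.Agent.H158R2.HJ.Triangular

/-!
# Hajos' theorem in the form needed here (from the library `Pool.Agent.H158R2.HJ`)
-/

set_option autoImplicit false
set_option linter.style.haveILetI false

open MeasureTheory Filter Topology Set
open Pool.Agent.H158R2.HJ

namespace H947TP

theorem A5 : St_A5 := by
  intro G _ _ ι _ _ g q hq hbij
  exact hajos_group (Nat.card G) G ι q g (by omega) hq hbij

theorem B5 : St_B5 := by
  intro D L hD hL
  haveI : Nonempty (Fin D) := ⟨⟨0, hD⟩⟩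
  exact hajos_lattice L hL

theorem B3 : St_B3 := by
  intro D L hL
  haveI hdisc := discrete_of_tiles L hL
  haveI hlat : IsZLattice ℝ (AddSubgroup.toIntSubmodule L) := ⟨span_of_tiles L hL⟩
  refine ⟨?_, ?_, ?_⟩
  · have h1 : Module.Finite ℤ (AddSubgroup.toIntSubmodule L) := ZLattice.module_finite ℝ _
    have h2 := (Module.Finite.iff_fg (N := AddSubgroup.toIntSubmodule L)).mp h1
    rw [Submodule.fg_iff_addSubgroup_fg] at h2
    simpa using h2
  · intro R
    haveI : DiscreteTopology L := hdisc
    have h1 : (Metric.closedBall (0 : Fin D → ℝ) |R| ∩ (L : Set (Fin D → ℝ))).Finite :=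
      Metric.finite_isBounded_inter_isClosed DiscreteTopology.isDiscrete
        Metric.isBounded_closedBall AddSubgroup.isClosed_of_discrete
    refine h1.subset ?_
    rintro v ⟨hv, hvR⟩
    refine ⟨?_, hv⟩
    rw [mem_closedBall_zero_iff, pi_norm_le_iff_of_nonneg (abs_nonneg R)]
    intro i
    exact (hvR i).trans (le_abs_self R)
  · intro v hv h
    exact eq_zero_of_small L hL v hv h

theorem C1 : St_C1 := by
  intro D L p hL hp x'
  obtain ⟨l, ⟨hl, h1⟩, huniq⟩ := hL (p.insertNth 0 x')
  refine ⟨remMap p l, ⟨⟨l, hl, rfl⟩, fun i => ?_⟩, ?_⟩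
  · have := h1 (p.succAbove i)
    rw [Fin.insertNth_apply_succAbove] at this
    exact this
  · rintro y ⟨⟨l2, hl2, rfl⟩, h2⟩
    obtain ⟨l3, hl3, h3, h4, h5⟩ := exists_lift L p hp l2 hl2 0
    have h6 : l3 = l := by
      apply huniq
      refine ⟨hl3, fun i => ?_⟩
      rcases Fin.eq_self_or_eq_succAbove p i with rfl | ⟨j, rfl⟩
      · rw [Fin.insertNth_apply_same]
        exact ⟨h4, h5⟩
      · rw [h3 _ (Fin.succAbove_ne p j), Fin.insertNth_apply_succAbove]
        exact h2 j
    funext i
    change l2 (p.succAbove i) = l (p.succAbove i)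
    rw [← h6, h3 _ (Fin.succAbove_ne p i)]

end H947TP
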