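import Pool.Agent.H947R2.TP.Defs

/-!
# Statements of the tasks (MP_c4753b_co)
A task `X` is: prove `theorem X : St_X` (or the theorem described in the note).
-/

open MeasureTheory Filter Topology Set
open scoped ENNReal

namespace H947TP

/-! ### Part A: Hajós' theorem for finite abelian groups -/

/-- forbidden values: `q = 0` encodes the factor `1 - a` (value `1`), `q ≥ 2` encodes
`1 + g + ... + g^(q-1)` (values: `q`-th roots of unity other than `1`). -/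
def Zq (q : ℕ) : Set ℂˣ := if q = 0 then {1} else {z | z ^ q = 1 ∧ z ≠ 1}

/-- the weight: `1` for `q = 0`, and the number of prime factors of `q` (with multiplicity) else -/
def wt (q : ℕ) : ℕ := if q = 0 then 1 else ArithmeticFunction.cardFactors q

/-- A1: irredundant coverings of a coset. -/
def St_A1 : Prop := ∀ (X : Type) [CommGroup X] [Finite X] (ι : Type) [Fintype ι] [DecidableEq ι]
  (c : ι → (X →* ℂˣ)) (q : ι → ℕ), (∀ i, q i = 0 ∨ 2 ≤ q i) →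
  ∀ (B : Subgroup X) (x0 : X) (K : Finset ι),
  (∀ x ∈ B, ∃ i ∈ K, c i (x0 * x) ∈ Zq (q i)) →
  (∀ i ∈ K, ∃ x ∈ B, ∀ j ∈ K, c j (x0 * x) ∈ Zq (q j) → j = i) →
  ArithmeticFunction.cardFactors ((B ⊓ ⨅ i ∈ K, (c i).ker).relIndex B) + 1 ≤ ∑ i ∈ K, wt (q i)

/-- A1a: the step of the proof of `A1` in which one finds a subgroup of prime index (or the kernel
of `c`) and a coset on which the factor does not vanish. -/
def St_A1a : Prop := ∀ (X : Type) [CommGroup X] [Finite X] (c : X →* ℂˣ) (q : ℕ),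
  (q = 0 ∨ 2 ≤ q) → ∀ (B : Subgroup X) (x0 : X), (∃ x ∈ B, c (x0 * x) ∈ Zq q) →
  -- the factor vanishes on the whole coset
  ((∀ x ∈ B, c (x0 * x) ∈ Zq q) ∧
    ArithmeticFunction.cardFactors ((B ⊓ c.ker).relIndex B) + 1 ≤ wt q) ∨
  -- a subgroup of prime index containing the kernel, and a coset without zeros
  (∃ B' : Subgroup X, B' ≤ B ∧ B ⊓ c.ker ≤ B' ∧ (B'.relIndex B).Prime ∧
    ∃ y ∈ B, ∀ x ∈ B', c (x0 * (y * x)) ∉ Zq q) ∨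
  -- the kernel itself, of small index, proper, and a coset of it without zeros
  (B ⊓ c.ker ≠ B ∧ ArithmeticFunction.cardFactors ((B ⊓ c.ker).relIndex B) ≤ wt q ∧
    ∃ y ∈ B, ∀ x ∈ B ⊓ c.ker, c (x0 * (y * x)) ∉ Zq q)

/-- A2: in a factorisation of a finite abelian group by cyclic subsets, every nontrivial character
kills a factor. -/
def St_A2 : Prop := ∀ (G : Type) [CommGroup G] [Finite G] (ι : Type) [Fintype ι] [DecidableEq ι]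
  (g : ι → G) (q : ι → ℕ), (∀ i, 2 ≤ q i) →
  Function.Bijective (fun a : (∀ i, Fin (q i)) => ∏ i, g i ^ (a i : ℕ)) →
  ∀ χ : G →* ℂˣ, χ ≠ 1 → ∃ i, χ (g i) ^ (q i) = 1 ∧ χ (g i) ≠ 1

/-- A3: the index of the annihilator of a subgroup in the dual group. -/
def St_A3 : Prop := ∀ (G : Type) [CommGroup G] [Finite G] (H : Subgroup G)
  (P : Subgroup (G →* ℂˣ)), (∀ χ : G →* ℂˣ, χ ∈ P ↔ ∀ h ∈ H, χ h = 1) → P.index = Nat.card H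

/-- A4: a subgroup containing a partial product of a factorisation has order divisible by its
size. -/
def St_A4 : Prop := ∀ (G : Type) [CommGroup G] [Finite G] (ι : Type) [Fintype ι] [DecidableEq ι]
  (g : ι → G) (q : ι → ℕ), (∀ i, 2 ≤ q i) →
  Function.Bijective (fun a : (∀ i, Fin (q i)) => ∏ i, g i ^ (a i : ℕ)) →
  ∀ (I : Finset ι) (H : Subgroup G), (∀ i ∈ I, g i ∈ H) → (∏ i ∈ I, q i) ∣ Nat.card H

/-- A5 (Hajós' theorem). -/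
def St_A5 : Prop := ∀ (G : Type) [CommGroup G] [Finite G] (ι : Type) [Fintype ι] [Nonempty ι]
  (g : ι → G) (q : ι → ℕ), (∀ i, 2 ≤ q i) →
  Function.Bijective (fun a : (∀ i, Fin (q i)) => ∏ i, g i ^ (a i : ℕ)) →
  ∃ i, g i ^ (q i) = 1

/-! ### Part B: Hajós' theorem for lattice tilings of `ℝ^D` by cubes -/

/-- A6: integer version of Hajós' theorem. -/
def St_A6 : Prop := ∀ (D N : ℕ), 0 < D → 2 ≤ N → ∀ (Λ : AddSubgroup (Fin D → ℤ)),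
  (∀ x : Fin D → ℤ, ∃! v, v ∈ Λ ∧ ∀ i, v i ≤ x i ∧ x i < v i + N) →
  ∃ k : Fin D, (Pi.single k (N : ℤ) : Fin D → ℤ) ∈ Λ

/-- the map `v ↦ v + f (v k) e_k` -/
def shiftMap {D : ℕ} (k : Fin D) (f : ℝ →+ ℝ) : (Fin D → ℝ) →+ (Fin D → ℝ) where
  toFun v := v + Pi.single k (f (v k))
  map_zero' := by simp
  map_add' u v := by
    ext i
    by_cases h : i = k
    · subst h; simp; ring
    · simp [h]

/-- B1: shifting the coordinates of one class keeps the tiling property (Keller). -/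
def St_B1 : Prop := ∀ (D : ℕ) (L : AddSubgroup (Fin D → ℝ)) (k : Fin D) (f : ℝ →+ ℝ), f 1 = 0 →
  IsTile L → IsTile (L.map (shiftMap k f))

/-- B2: `ℚ`-linear maps `ℝ → ℚ` fixing `1`, close to the identity on a finite set. -/
def St_B2 : Prop := ∀ (S : Finset ℝ) (η : ℝ), 0 < η →
  ∃ φ : ℝ →ₗ[ℚ] ℚ, φ 1 = 1 ∧ ∀ s ∈ S, |(φ s : ℝ) - s| < η

/-- B3: a tiling group is finitely generated, and has finitely many points in bounded regions;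
nonzero vectors have a coordinate of absolute value at least one. -/
def St_B3 : Prop := ∀ (D : ℕ) (L : AddSubgroup (Fin D → ℝ)), IsTile L →
  L.FG ∧ (∀ R : ℝ, {v | v ∈ L ∧ ∀ i, |v i| ≤ R}.Finite) ∧
  (∀ v ∈ L, (∀ i, |v i| < 1) → v = 0)

/-- B4: Hajós' theorem for rational lattices. -/
def St_B4 : Prop := ∀ (D : ℕ) (L : AddSubgroup (Fin D → ℝ)), 0 < D → IsTile L → L.FG →
  (∀ v ∈ L, ∀ i, ∃ r : ℚ, v i = (r : ℝ)) → ∃ k : Fin D, (Pi.single k (1 : ℝ) : Fin D → ℝ) ∈ L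

/-- B5: Hajós' theorem for lattice tilings by cubes. -/
def St_B5 : Prop := ∀ (D : ℕ) (L : AddSubgroup (Fin D → ℝ)), 0 < D → IsTile L →
  ∃ k : Fin D, (Pi.single k (1 : ℝ) : Fin D → ℝ) ∈ L

/-! ### Part C: the estimate for lattice tilings -/

/-- removing coordinate `p` -/
def remMap {D : ℕ} (p : Fin (D + 1)) : (Fin (D + 1) → ℝ) →+ (Fin D → ℝ) where
  toFun v i := v (p.succAbove i)
  map_zero' := rfl
  map_add' _ _ := rfl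

/-- C1: if `e_p ∈ L`, removing coordinate `p` gives again a lattice tiling. -/
def St_C1 : Prop := ∀ (D : ℕ) (L : AddSubgroup (Fin (D + 1) → ℝ)) (p : Fin (D + 1)),
  IsTile L → (Pi.single p (1 : ℝ) : Fin (D + 1) → ℝ) ∈ L → IsTile (L.map (remMap p))

/-- C2: the sum over the contacts in direction `k ≠ p` is at most the sum over the contacts of the
projected lattice, when the function is a product and the factor for coordinate `p` has all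
one-step means at most one. -/
def St_C2 : Prop := ∀ (D : ℕ) (L : AddSubgroup (Fin (D + 1) → ℝ)) (p : Fin (D + 1)),
  IsTile L → (Pi.single p (1 : ℝ) : Fin (D + 1) → ℝ) ∈ L →
  ∀ (k : Fin D) (h : ℝ → ℝ) (F : (Fin D → ℝ) → ℝ), (∀ u, (∀ i, |u i| ≤ 1) → 0 ≤ F u) →
  (∀ t, 0 ≤ t → t ≤ 1 → 0 ≤ h t) →
  (∀ θ, 0 ≤ θ → θ < 1 → (1 - θ) * h θ + θ * h (1 - θ) ≤ 1) →
  Ex L (p.succAbove k) (fun u => h |u p| * F (remMap p u)) ≤ Ex (L.map (remMap p)) k F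

/-- C3: the order of the coordinates given by Hajós' theorem. -/
def St_C3 : Prop := ∀ (D : ℕ) (L : AddSubgroup (Fin D → ℝ)), IsTile L →
  ∃ σ : Fin D ≃ Fin D, ∀ k,
    (∀ u ∈ AA L k, ∀ l, σ k < σ l → u l = 0) ∧
    ∀ h : Fin D → ℝ → ℝ, (∀ l t, 0 ≤ t → t ≤ 1 → 0 ≤ h l t) →
      (∀ l θ, 0 ≤ θ → θ < 1 → (1 - θ) * h l θ + θ * h l (1 - θ) ≤ 1) →
      Ex L k (fun u => ∏ l ∈ Finset.univ.filter (fun l => σ l < σ k), h l |u l|) ≤ 1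

/-- C4: one-step inequality for the exponential. -/
def St_C4 : Prop := ∀ (lam θ : ℝ), 0 ≤ lam → lam ≤ 4 → 0 ≤ θ → θ ≤ 1 →
  (1 - θ) * Real.exp (lam * (θ - 1 / 2)) + θ * Real.exp (lam * ((1 - θ) - 1 / 2)) ≤ 1

/-- C5: every order loses at least `μ`. -/
def St_C5 : Prop := ∀ (D n μ : ℕ) (b : Fin D → Fin n) (σ : Fin D ≃ Fin D), 2 ≤ n → 1 ≤ μ →
  (∀ j, μ ≤ cnt b j) →
  ∑ k, (⨆ j : {j : Fin n // j ≠ b k}, (before b σ k j : ℝ) / cnt b j) ≤ (D : ℝ) - μ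

/-- C6: the estimate for one direction. -/
def St_C6 : Prop := ∀ (D n μ : ℕ) (b : Fin D → Fin n) (δ : ℝ) (L : AddSubgroup (Fin D → ℝ))
  (σ : Fin D ≃ Fin D) (k : Fin D), 4 ≤ n → 1 ≤ μ → (∀ j, μ ≤ cnt b j) → 0 < δ → δ ≤ 1 / 2 →
  IsTile L →
  (∀ u ∈ AA L k, ∀ l, σ k < σ l → u l = 0) →
  (∀ h : Fin D → ℝ → ℝ, (∀ l t, 0 ≤ t → t ≤ 1 → 0 ≤ h l t) →
      (∀ l θ, 0 ≤ θ → θ < 1 → (1 - θ) * h l θ + θ * h l (1 - θ) ≤ 1) →
      Ex L k (fun u => ∏ l ∈ Finset.univ.filter (fun l => σ l < σ k), h l |u l|) ≤ 1) →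
  Ex L k (Phi b δ k) ≤
    (⨆ j : {j : Fin n // j ≠ b k}, (before b σ k j : ℝ) / cnt b j) / 2
      + Real.log (n - 1) / (4 * μ) + D * δ

/-- C7: the estimate for lattice tilings. -/
def St_C7 : Prop := ∀ (D n μ : ℕ) (b : Fin D → Fin n) (δ : ℝ) (L : AddSubgroup (Fin D → ℝ)),
  4 ≤ n → 1 ≤ μ → (∀ j, μ ≤ cnt b j) → 0 < δ → δ ≤ 1 / 2 → IsTile L →
  SS b δ L ≤ ((D : ℝ) - μ) / 2 + D * (Real.log (n - 1) / (4 * μ)) + D * (D * δ)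

/-! ### Part P: the penalty and the body -/

/-- P1: properties of the penalty. -/
def St_P1 : Prop := ∀ (D n : ℕ) (b : Fin D → Fin n) (δ : ℝ) (k : Fin D), 0 < δ → δ ≤ 1 →
  2 ≤ D → 2 ≤ n →
  (∀ w, 0 ≤ Phi b δ k w) ∧ (∀ w, (∀ i, |w i| ≤ 1) → Phi b δ k w ≤ 1) ∧
  (∀ w, Phi b δ k (-w) = Phi b δ k w) ∧ Phi b δ k 0 = 0 ∧
  Continuous (Phi b δ k) ∧ ConvexOn ℝ univ (Phi b δ k) ∧
  (∀ w (j : Fin n), j ≠ b k → avg b j w ≤ Phi b δ k w) ∧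
  (∀ w (l : Fin D), l ≠ k → (|w l| - (1 - δ)) / δ ≤ Phi b δ k w) ∧
  (∀ w (t : ℝ), 0 ≤ t → (∀ j : Fin n, j ≠ b k → avg b j w ≤ t) →
    (∀ l : Fin D, l ≠ k → (|w l| - (1 - δ)) / δ ≤ t) → Phi b δ k w ≤ t)

/-- P2: properties of the body. -/
def St_P2 : Prop := ∀ (D n : ℕ) (b : Fin D → Fin n) (δ ε : ℝ), 0 < δ → δ ≤ 1 → 0 < ε →
  2 ≤ D → 2 ≤ n →
  Convex ℝ (body b δ ε) ∧ IsCompact (body b δ ε) ∧ (interior (body b δ ε)).Nonempty ∧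
  (∀ x ∈ body b δ ε, -x ∈ body b δ ε) ∧ volume (body b δ ε) ≠ 0 ∧ volume (body b δ ε) ≠ ⊤

/-- P3: the packing criterion. -/
def St_P3 : Prop := ∀ (D n : ℕ) (b : Fin D → Fin n) (δ ε : ℝ), 0 < δ → δ ≤ 1 → 0 < ε →
  2 ≤ D → 2 ≤ n → ∀ X : Set (Fin D → ℝ),
  IsPacking (body b δ ε) X ↔ ∀ x ∈ X, ∀ y ∈ X, x ≠ y → Sep b δ ε (x - y)

/-! ### Part E: the non-lattice packing -/

/-- E1: differences of centres. -/
def St_E1 : Prop := ∀ (D n : ℕ) (b : Fin D → Fin n) (f : (Fin n → Bool) → (Fin n → Bool)),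
  Keller f → ∀ Z Z' : Fin D → ℤ, Z ≠ Z' →
  (∃ l, 3 / 2 ≤ |tau b f Z l - tau b f Z' l|) ∨
  (∃ k l, k ≠ l ∧ 1 ≤ |tau b f Z k - tau b f Z' k| ∧ 1 ≤ |tau b f Z l - tau b f Z' l|) ∨
  (∃ (k : Fin D) (j : Fin n), j ≠ b k ∧ 1 ≤ |tau b f Z k - tau b f Z' k| ∧
    ∀ l, b l = j → 1 / 2 ≤ |tau b f Z l - tau b f Z' l|)

/-- E2: the scaled centres give a packing of the body. -/
def St_E2 : Prop := ∀ (D n : ℕ) (b : Fin D → Fin n) (f : (Fin n → Bool) → (Fin n → Bool))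
  (δ ε s : ℝ), Keller f → (∀ j, 1 ≤ cnt b j) → 0 < δ → δ ≤ 1 → 0 < ε → ε ≤ δ →
  2 ≤ D → 2 ≤ n → s * (1 + ε / 2) = 1 → ∀ Z Z' : Fin D → ℤ, Z ≠ Z' →
  Sep b δ ε (fun l => s * tau b f Z l - s * tau b f Z' l)

/-! ### Part V: densities -/

/-- V1: volumes of balls. -/
def St_V1 : Prop := ∀ (d : ℕ) (c : ℝ), 1 ≤ d → 0 ≤ c →
  (∀ R : ℝ, 0 < R → volume (eball d R) ≠ 0 ∧ volume (eball d R) ≠ ⊤) ∧
  Tendsto (fun R : ℝ => volume (eball d (R + c)) / volume (eball d R)) atTop (𝓝 1)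

/-- V2: upper bound for the density through a set with disjoint translates. -/
def St_V2 : Prop := ∀ (d : ℕ) (K F : Set (Fin d → ℝ)) (Λ : AddSubgroup (Fin d → ℝ)), 1 ≤ d →
  IsCompact K → MeasurableSet F → Bornology.IsBounded F → volume F ≠ 0 →
  (∀ v ∈ Λ, v ≠ 0 → Disjoint F (tr v F)) →
  density K (Λ : Set (Fin d → ℝ)) ≤ volume K / volume F

/-- V3: lower bound for the density of perturbed cubic lattices. -/
def St_V3 : Prop := ∀ (d : ℕ) (K : Set (Fin d → ℝ)) (s C : ℝ) (τ : (Fin d → ℤ) → (Fin d → ℝ)),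
  1 ≤ d → IsCompact K → Convex ℝ K → 0 < s → (∀ Z i, |τ Z i - s * Z i| ≤ C) →
  Function.Injective τ → IsPacking K (range τ) →
  volume K / ENNReal.ofReal (s ^ d) ≤ density K (range τ)

/-! ### Part L: the limit argument -/

/-- L1: the set `F` for one group: remove from the unit cube its overlaps with the cubes above. -/
def St_L1 : Prop := ∀ (D n : ℕ) (b : Fin D → Fin n) (δ ε : ℝ) (Λ : AddSubgroup (Fin D → ℝ)),
  0 < δ → δ ≤ 1 → 0 < ε → ε < 1 → 2 ≤ D → 2 ≤ n → (∀ v ∈ Λ, v ≠ 0 → Sep b δ ε v) →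
  ∀ P : Set (Fin D → ℝ),
  P = {v | v ∈ Λ ∧ (∀ l, |v l| < 1) ∧ ∃ k, 0 < v k ∧ 1 ≤ Nk b δ ε k v} →
  P.Finite ∧ ∃ F : Set (Fin D → ℝ), MeasurableSet F ∧ F ⊆ {x | ∀ i, 0 ≤ x i ∧ x i < 1} ∧
    {x | ∀ i, 0 ≤ x i ∧ x i < 1 - ε} ⊆ F ∧
    (∀ v ∈ Λ, v ≠ 0 → Disjoint F (tr v F)) ∧
    ENNReal.ofReal (1 - ∑ᶠ v ∈ P, ∏ l, (1 - |v l|)) ≤ volume F

/-- The limit of a sequence of subgroups along an ultrafilter. -/
def Lim {D : ℕ} (U : Ultrafilter ℕ) (Λ : ℕ → AddSubgroup (Fin D → ℝ)) :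
    AddSubgroup (Fin D → ℝ) where
  carrier := {x | ∃ v : ℕ → (Fin D → ℝ), (∀ m, v m ∈ Λ m) ∧ Tendsto v U (𝓝 x)}
  zero_mem' := ⟨fun _ => 0, fun m => (Λ m).zero_mem, tendsto_const_nhds⟩
  add_mem' := by
    rintro x y ⟨v, hv, hv'⟩ ⟨w, hw, hw'⟩
    exact ⟨fun m => v m + w m, fun m => (Λ m).add_mem (hv m) (hw m), hv'.add hw'⟩
  neg_mem' := by
    rintro x ⟨v, hv, hv'⟩
    exact ⟨fun m => - v m, fun m => (Λ m).neg_mem (hv m), hv'.neg⟩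

/-- L2: nonzero vectors of the limit are outside the open cube. -/
def St_L2 : Prop := ∀ (D n : ℕ) (b : Fin D → Fin n) (δ : ℝ) (ε : ℕ → ℝ)
  (Λ : ℕ → AddSubgroup (Fin D → ℝ)) (U : Ultrafilter ℕ), 0 < δ → δ ≤ 1 → 2 ≤ D → 2 ≤ n →
  Tendsto ε U (𝓝 0) → (∀ m, ∀ v ∈ Λ m, v ≠ 0 → Sep b δ (ε m) v) →
  ∀ v ∈ Lim U Λ, v ≠ 0 → ∃ l, 1 ≤ |v l|

/-- L3: bounded sequences have limits. -/
def St_L3 : Prop := ∀ (D : ℕ) (Λ : ℕ → AddSubgroup (Fin D → ℝ)) (U : Ultrafilter ℕ) (R : ℝ)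
  (v : ℕ → (Fin D → ℝ)), (∀ᶠ m in U, v m ∈ Λ m ∧ ∀ l, |v m l| ≤ R) →
  ∃ x ∈ Lim U Λ, Tendsto v U (𝓝 x)

/-- L4: the closed cubes of the limit cover space. -/
def St_L4 : Prop := ∀ (D n : ℕ) (b : Fin D → Fin n) (δ G : ℝ) (ε : ℕ → ℝ)
  (Λ : ℕ → AddSubgroup (Fin D → ℝ)) (U : Ultrafilter ℕ), 0 < δ → δ ≤ 1 → 2 ≤ D → 2 ≤ n →
  0 ≤ G → (∀ m, 0 < ε m) → Tendsto ε U (𝓝 0) → (∀ m, ∀ v ∈ Λ m, v ≠ 0 → Sep b δ (ε m) v) →
  (∀ m, ∀ F : Set (Fin D → ℝ), MeasurableSet F → Bornology.IsBounded F →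
    (∀ v ∈ Λ m, v ≠ 0 → Disjoint F (tr v F)) → volume F < ENNReal.ofReal (1 - G * ε m)) →
  ∀ x : Fin D → ℝ, ∃ v ∈ Lim U Λ, ∀ l, v l ≤ x l ∧ x l ≤ v l + 1

/-- L5: closed covering and separation give a tiling. -/
def St_L5 : Prop := ∀ (D : ℕ) (L : AddSubgroup (Fin D → ℝ)),
  (∀ v ∈ L, v ≠ 0 → ∃ l, 1 ≤ |v l|) →
  (∀ x : Fin D → ℝ, ∃ v ∈ L, ∀ l, v l ≤ x l ∧ x l ≤ v l + 1) → IsTile L

/-- L6: upper bound of the sum over the contacts in the limit. -/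
def St_L6 : Prop := ∀ (D n : ℕ) (b : Fin D → Fin n) (δ η : ℝ) (ε : ℕ → ℝ)
  (Λ : ℕ → AddSubgroup (Fin D → ℝ)) (U : Ultrafilter ℕ), 0 < δ → δ ≤ 1 → 2 ≤ D → 2 ≤ n →
  0 < η → (∀ m, 0 < ε m) → Tendsto ε U (𝓝 0) →
  (∀ m, ∀ v ∈ Λ m, v ≠ 0 → Sep b δ (ε m) v) → IsTile (Lim U Λ) →
  ∀ᶠ m in U, ∑ᶠ v ∈ {v | v ∈ Λ m ∧ (∀ l, |v l| < 1) ∧ ∃ k, 0 < v k ∧ 1 ≤ Nk b δ (ε m) k v},
    ∏ l, (1 - |v l|) ≤ ε m * (SS b δ (Lim U Λ) + η)

/-- L7: the bound for all subgroups. -/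
def St_L7 : Prop := ∀ (D n : ℕ) (b : Fin D → Fin n) (δ G G' : ℝ), 0 < δ → δ ≤ 1 →
  2 ≤ D → 2 ≤ n → 0 ≤ G' → G < G' →
  (∀ L : AddSubgroup (Fin D → ℝ), IsTile L → SS b δ L ≤ G) →
  ∃ ε0 : ℝ, 0 < ε0 ∧ ∀ ε, 0 < ε → ε < ε0 → ∀ Λ : AddSubgroup (Fin D → ℝ),
    (∀ v ∈ Λ, v ≠ 0 → Sep b δ ε v) →
    ∃ F : Set (Fin D → ℝ), MeasurableSet F ∧ Bornology.IsBounded F ∧
      (∀ v ∈ Λ, v ≠ 0 → Disjoint F (tr v F)) ∧ ENNReal.ofReal (1 - G' * ε) ≤ volume F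

/-! ### Part G: Keller function -/

/-- bit vector of a natural number -/
def bits (n : ℕ) (x : ℕ) : Fin n → Bool := fun i => x.testBit i

/-- G1: a counterexample to Keller's conjecture in dimension `n`. -/
def St_G1 (n : ℕ) : Prop := ∃ f : (Fin n → Bool) → (Fin n → Bool), Keller f

/-! ### Main -/

def St_Main : Prop := ∀ d : ℕ, 72 ≤ d → ∃ K : Set (Fin d → ℝ), Convex ℝ K ∧ IsCompact K ∧
  (interior K).Nonempty ∧ (∀ x ∈ K, -x ∈ K) ∧ deltaL K < deltaT K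

end H947TP
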